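import Mathlib
import Pool.Agent.Y920.AD.Stm

/-! Project AD (helper920, MP_28f3fb_gt), part FAC3 (helper182): hyperbolic 3-space has labellings of
multiplicity 3 with linear growth at every level, thickened version. -/

set_option autoImplicit false

namespace Pool.Agent.Y182.AD

open Pool.Agent.H983R3 Pool.Agent.Y920.AD

/-- the point of the plane with the scaled coordinates `c` -/
noncomputable def vec (W : ℝ) (c : ℝ × ℝ) : EuclideanSpace ℝ (Fin (3 - 1)) :=
  WithLp.toLp 2 (fun i => if (i : ℕ) = 0 then W * c.1 else W * c.2)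

lemma vec_close {W ρ : ℝ} (hW : 0 < W) {z : Hyp 3} {c : ℝ × ℝ}
    (h : Par.cl (3 * ρ) c (Par.planar W z)) : ‖z.x - vec W c‖ ≤ 5 * W * ρ := by
  have hρ : 0 < ρ := by
    have := (abs_nonneg _).trans_lt h.1
    linarith
  let i0 : Fin (3 - 1) := ⟨0, by norm_num⟩
  let i1 : Fin (3 - 1) := ⟨1, by norm_num⟩
  have hx0 : z.x i0 = W * (Par.planar W z).1 := by
    unfold Par.planar; simp only; field_simp; rfl
  have hx1 : z.x i1 = W * (Par.planar W z).2 := by
    unfold Par.planar; simp only; field_simp; rfl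
  have e0 : (z.x - vec W c) i0 = W * ((Par.planar W z).1 - c.1) := by
    have : (z.x - vec W c) i0 = z.x i0 - W * c.1 := rfl
    rw [this, hx0]
    ring
  have e1 : (z.x - vec W c) i1 = W * ((Par.planar W z).2 - c.2) := by
    have : (z.x - vec W c) i1 = z.x i1 - W * c.2 := rfl
    rw [this, hx1]
    ring
  have h1 : ‖z.x - vec W c‖ ^ 2 ≤ (5 * W * ρ) ^ 2 := by
    rw [Par.norm_sq_two]
    show (z.x - vec W c) i0 ^ 2 + (z.x - vec W c) i1 ^ 2 ≤ _
    rw [e0, e1]
    have a0 : ((Par.planar W z).1 - c.1) ^ 2 ≤ (3 * ρ) ^ 2 := sq_le_sq' (by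
      have := (abs_lt.mp h.1).1; linarith) (by have := (abs_lt.mp h.1).2; linarith)
    have a1 : ((Par.planar W z).2 - c.2) ^ 2 ≤ (3 * ρ) ^ 2 := sq_le_sq' (by
      have := (abs_lt.mp h.2).1; linarith) (by have := (abs_lt.mp h.2).2; linarith)
    have hW2 : 0 ≤ W ^ 2 := sq_nonneg W
    calc (W * ((Par.planar W z).1 - c.1)) ^ 2 + (W * ((Par.planar W z).2 - c.2)) ^ 2 =
        W ^ 2 * ((Par.planar W z).1 - c.1) ^ 2 + W ^ 2 * ((Par.planar W z).2 - c.2) ^ 2 := by ring
      _ ≤ W ^ 2 * (3 * ρ) ^ 2 + W ^ 2 * (3 * ρ) ^ 2 :=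
        add_le_add (mul_le_mul_of_nonneg_left a0 hW2) (mul_le_mul_of_nonneg_left a1 hW2)
      _ = 18 * (W * ρ) ^ 2 := by ring
      _ ≤ 25 * (W * ρ) ^ 2 := by
        have := sq_nonneg (W * ρ)
        linarith
      _ = (5 * W * ρ) ^ 2 := by ring
  exact (abs_le_of_sq_le_sq' h1 (by positivity)).2

theorem t_FAC3 : S_FAC3 := by
  classical
  intro htri P r hr hP
  have hl := P.l_pos
  have hl9 := P.nine_le_l
  set W : ℝ := 2 * P.l ^ 3 + 1 with hWd
  have hW1 : 1 ≤ W := by have := pow_pos hl 3; linarith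
  have hW0 : 0 < W := by linarith
  refine ⟨Label, P.lab W, 9 * P.K, 5 * W * P.l + P.l, ?_, ?_⟩
  · intro z0
    exact P.multiplicity hr hP (show 2 * P.l ^ 3 < W by linarith) z0
  · intro L x T n
    set n0 := P.lev x.h with hn0
    obtain ⟨hx1, hx2⟩ := P.lev_spec x.pos
    rw [← hn0] at hx1 hx2
    set m : ℤ := n0 - ((T + 1 : ℕ) : ℤ) with hm
    have hexpr : Real.exp r ≤ P.l := (Real.exp_le_exp.mpr (by linarith)).trans hP
    have hexp : Real.exp ((T : ℝ) + r) ≤ P.l ^ (T + 1) := by
      rw [Real.exp_add, pow_succ]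
      have h1 : Real.exp (T : ℝ) ≤ P.l ^ T := by
        calc Real.exp (T : ℝ) = (Real.exp 1) ^ T := by rw [← Real.exp_nat_mul]; simp
          _ ≤ P.l ^ T := by
            apply pow_le_pow_left₀ (Real.exp_pos _).le
            have := Real.exp_one_lt_d9
            linarith
      exact mul_le_mul h1 hexpr (Real.exp_pos _).le (pow_nonneg hl.le _)
    have hTr : (0 : ℝ) ≤ (T : ℝ) + r := by positivity
    have hum : Real.exp ((T : ℝ) + r) * x.h ≤ P.u m := by
      calc Real.exp ((T : ℝ) + r) * x.h ≤ P.l ^ (T + 1) * P.u n0 :=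
            mul_le_mul hexp hx2 x.pos.le (pow_nonneg hl.le _)
        _ = P.u m := by rw [P.u_shift]
    have hC : ∀ n' : ℤ, ∃ C : Finset (ℝ × ℝ), C.card ≤ P.K * (2 * T + 3) ∧
        (m ≤ n' → n' ≤ n0 + T + 1 → ∀ y : ℝ × ℝ, |y.1 - (Par.planar W x).1| ≤ P.u m →
          |y.2 - (Par.planar W x).2| ≤ P.u m → P.ell n' y = L →
          ∃ c ∈ C, Par.cl (3 * P.u n') c y) := by
      intro n'
      by_cases h : m ≤ n' ∧ n' ≤ n0 + T + 1
      · obtain ⟨C, hC1, hC2⟩ := P.growth L m n' h.1 (Par.planar W x)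
        refine ⟨C, hC1.trans ?_, fun _ _ => hC2⟩
        apply Nat.mul_le_mul_left
        omega
      · exact ⟨∅, by simp, fun h1 h2 => absurd ⟨h1, h2⟩ h⟩
    choose C hC1 hC2 using hC
    refine ⟨(Finset.Icc (n - 1) (n + 1)).biUnion fun n' => (C n').image (vec W), ?_, ?_⟩
    · refine (Finset.card_biUnion_le_card_mul _ _ (P.K * (2 * T + 3)) fun n' _ =>
        Finset.card_image_le.trans (hC1 n')).trans ?_
      have hcard : (Finset.Icc (n - 1) (n + 1)).card = 3 := by
        rw [Int.card_Icc]; omega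
      rw [hcard]
      have h1 : 3 * (P.K * (2 * T + 3)) = P.K * (3 * (2 * T + 3)) := by ring
      have h2 : 9 * P.K * (T + 1) = P.K * (9 * (T + 1)) := by ring
      rw [h1, h2]
      apply Nat.mul_le_mul_left
      omega
    · intro y z hzL hyz hxy hyn
      have hy := P.lev_spec y.pos
      rw [hyn] at hy
      obtain ⟨hy1, hy2⟩ := hy
      have hxz : hdist x z ≤ (T : ℝ) + r := (htri 3 x y z).trans (add_le_add hxy hyz)
      have hyzh : ‖y.x - z.x‖ ≤ P.l * P.u n :=
        (horiz_le hr hyz).trans (mul_le_mul hexpr hy2 y.pos.le hl.le)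
      have hlow : m ≤ P.lev z.h := P.le_lev z.pos ((height_le hTr hxz).trans hum)
      have hupp : P.lev z.h ≤ n0 + T + 1 := by
        have h1 := height_ge hTr hxz
        have h2 : P.u (n0 + 1 + ((T + 1 : ℕ) : ℤ)) < z.h := by
          have h3 : P.l ^ (T + 1) * P.u (n0 + 1 + ((T + 1 : ℕ) : ℤ)) < P.l ^ (T + 1) * z.h := by
            calc P.l ^ (T + 1) * P.u (n0 + 1 + ((T + 1 : ℕ) : ℤ)) = P.u (n0 + 1) := by
                  rw [P.u_shift]; congr 1; ring
              _ < x.h := hx1
              _ ≤ Real.exp ((T : ℝ) + r) * z.h := h1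
              _ ≤ P.l ^ (T + 1) * z.h := mul_le_mul_of_nonneg_right hexp z.pos.le
          exact lt_of_mul_lt_mul_left h3 (pow_nonneg hl.le _)
        have h4 := P.lev_lt z.pos h2
        push_cast at h4
        omega
      have hn1 : n - 1 ≤ P.lev z.h := by
        apply P.le_lev z.pos
        have h1 : P.l * P.u n = P.u (n - 1) := by
          have := P.u_succ (n - 1)
          rw [show n - 1 + 1 = n by ring] at this
          exact this.symm
        rw [← h1]
        exact (height_le hr hyz).trans (mul_le_mul hexpr hy2 y.pos.le hl.le)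
      have hn2 : P.lev z.h ≤ n + 1 := by
        have h1 := height_ge hr hyz
        have h2 : P.u (n + 1) = P.l * P.u (n + 2) := by
          have := P.u_succ (n + 1)
          rwa [show n + 1 + 1 = n + 2 by ring] at this
        have h3 : P.l * P.u (n + 2) < P.l * z.h := by
          rw [← h2]
          exact hy1.trans_le (h1.trans (mul_le_mul_of_nonneg_right hexpr z.pos.le))
        have h4 := P.lev_lt z.pos (lt_of_mul_lt_mul_left h3 hl.le)
        omega
      have hclose := Par.planar_close hW0 hTr hxz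
      have hle : Real.exp ((T : ℝ) + r) * x.h / W ≤ P.u m := by
        rw [div_le_iff₀ hW0]
        have := P.u_pos m
        nlinarith
      obtain ⟨c, hc, hcl⟩ := hC2 (P.lev z.h) hlow hupp (Par.planar W z) (hclose.1.trans hle)
        (hclose.2.trans hle) hzL
      refine ⟨vec W c, ?_, ?_⟩
      · rw [Finset.mem_biUnion]
        exact ⟨P.lev z.h, Finset.mem_Icc.2 ⟨hn1, hn2⟩, Finset.mem_image_of_mem _ hc⟩
      · have h1 := vec_close hW0 hcl
        have h2 : P.u (P.lev z.h) ≤ P.l * P.u n := by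
          have h3 : P.l * P.u n = P.u (n - 1) := by
            have := P.u_succ (n - 1)
            rw [show n - 1 + 1 = n by ring] at this
            exact this.symm
          rw [h3]
          exact P.u_anti hn1
        have h4 : 5 * W * P.u (P.lev z.h) ≤ 5 * W * (P.l * P.u n) :=
          mul_le_mul_of_nonneg_left h2 (by positivity)
        have h5 : ‖y.x - vec W c‖ ≤ ‖y.x - z.x‖ + ‖z.x - vec W c‖ := by
          have h6 : y.x - vec W c = (y.x - z.x) + (z.x - vec W c) := by abel
          rw [h6]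
          exact norm_add_le _ _
        calc ‖y.x - vec W c‖ ≤ P.l * P.u n + 5 * W * (P.l * P.u n) := by linarith
          _ = (5 * W * P.l + P.l) * P.u n := by ring

end Pool.Agent.Y182.AD
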